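import Pool.Agent.H81.FX.Targets

/-! Board `fcx_modules` (MP_2822c4_an), row FIN: the theorem for finite supports. -/

set_option autoImplicit false

namespace Pool.Agent.H89.FCX

open Pool.Agent.H81.FX Finset

theorem pf_FIN (hGOOD : T_GOOD) (hAPP : T_APP) : T_FIN := by
  intro m δ hδ
  have hm : (0 : ℝ) ≤ m := Nat.cast_nonneg m
  have he : 0 < δ / 320 := by positivity
  have he1 : 0 < δ / 480 := by positivity
  have he2 : 0 < δ / (32 * (m + 1)) := by positivity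
  obtain ⟨N, hN⟩ := hGOOD m (δ / 320) (δ / 320) (δ / 480) (δ / (32 * (m + 1))) he he he1 he2
  refine ⟨N, ?_⟩
  intro ι _ S b hb
  obtain ⟨T, hT, hg⟩ := hN ι S b hb
  refine ⟨T, hT, ?_⟩
  intro k hk c Z Ξ hSZ h1 hk1
  have hnn : 0 ≤ ∑ ξ ∈ Ξ, ‖dl (FreeGroup.of k) ξ - cv Z b c ξ‖ :=
    Finset.sum_nonneg fun _ _ => norm_nonneg _
  by_cases hc : ∑ i, ∑ z ∈ Z, ‖c i z‖ ≤ 10
  · have h := hAPP m (δ / 320) (δ / 320) (δ / 480) (δ / (32 * (m + 1))) he he he1 he2 ι S b hb k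
      (hg k hk) c Z Ξ hSZ h1 hk1 hc
    have h2 : 8 * (m : ℝ) * (δ / (32 * (m + 1))) ≤ δ / 4 := by
      rw [mul_div_assoc', div_le_iff₀ (by positivity)]
      nlinarith
    linarith
  · push Not at hc
    linarith

end Pool.Agent.H89.FCX

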