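import Pool.Agent.H81.FX.Targets

/-! Board `fcx_modules` (MP_2822c4_an), row YNG: convolution in `ℓ¹`. -/

set_option autoImplicit false

namespace Pool.Agent.H89.FCX

open Pool.Agent.H81.FX Finset

/-- the change of variables of the convolution -/
def cvEquiv (G : Type) [Group G] : G × G ≃ G × G where
  toFun := fun p => (p.2, p.2⁻¹ * p.1)
  invFun := fun p => (p.1 * p.2, p.1)
  left_inv := by
    rintro ⟨x, y⟩
    simp
  right_inv := by
    rintro ⟨y, z⟩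
    simp

theorem pf_YNG : T_YNG := by
  intro ι b c hb hc
  have hb' : Summable fun g => ‖b g‖ := summable_norm_iff.2 hb
  have hc' : Summable fun g => ‖c g‖ := summable_norm_iff.2 hc
  have h1 : Summable fun p : FreeGroup ι × FreeGroup ι => ‖b p.1‖ * ‖c p.2‖ :=
    hb'.mul_of_nonneg hc' (fun _ => norm_nonneg _) (fun _ => norm_nonneg _)
  have h2 : Summable fun p : FreeGroup ι × FreeGroup ι => ‖b p.2‖ * ‖c (p.2⁻¹ * p.1)‖ :=
    ((cvEquiv (FreeGroup ι)).summable_iff (f := fun p : FreeGroup ι × FreeGroup ι =>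
      ‖b p.1‖ * ‖c p.2‖)).2 h1
  have h3 : ∀ x, Summable fun y => ‖b y * c (y⁻¹ * x)‖ := by
    intro x
    have h := h2.prod_factor x
    simpa only [norm_mul] using h
  have h4 : Summable fun x => ∑' y, ‖b y‖ * ‖c (y⁻¹ * x)‖ := h2.prod
  have h5 : ∀ x, ‖∑' y, b y * c (y⁻¹ * x)‖ ≤ ∑' y, ‖b y‖ * ‖c (y⁻¹ * x)‖ := by
    intro x
    have h := norm_tsum_le_tsum_norm (h3 x)
    simpa only [norm_mul] using h
  have h6 : Summable fun x => ‖∑' y, b y * c (y⁻¹ * x)‖ :=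
    Summable.of_nonneg_of_le (fun _ => norm_nonneg _) h5 h4
  refine ⟨h6, fun x => (h3 x).of_norm, ?_⟩
  calc ∑' x, ‖∑' y, b y * c (y⁻¹ * x)‖ ≤ ∑' x, ∑' y, ‖b y‖ * ‖c (y⁻¹ * x)‖ :=
        h6.tsum_le_tsum h5 h4
    _ = ∑' p : FreeGroup ι × FreeGroup ι, ‖b p.2‖ * ‖c (p.2⁻¹ * p.1)‖ := h2.tsum_prod.symm
    _ = ∑' p : FreeGroup ι × FreeGroup ι, ‖b p.1‖ * ‖c p.2‖ :=
        (cvEquiv (FreeGroup ι)).tsum_eq (fun p : FreeGroup ι × FreeGroup ι => ‖b p.1‖ * ‖c p.2‖)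
    _ = (∑' g, ‖b g‖) * ∑' g, ‖c g‖ := (hb'.tsum_mul_tsum hc' h1).symm

end Pool.Agent.H89.FCX

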